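import Mathlib

/-!
The combinatorial core: nested attacks force a large amount of removed mass.
-/

set_option autoImplicit false

namespace Pool.Agent.V11238.Om

open Finset

abbrev Str := List Bool

noncomputable def mass (F : Finset Str) : ℝ := ∑ p ∈ F, (1 / 2 : ℝ) ^ p.length

lemma mass_nonneg (F : Finset Str) : 0 ≤ mass F := sum_nonneg fun _ _ => by positivity

lemma mass_mono {F G : Finset Str} (h : F ⊆ G) : mass F ≤ mass G :=
  sum_le_sum_of_subset_of_nonneg h fun _ _ _ => by positivity

lemma mass_union {F G : Finset Str} (h : Disjoint F G) : mass (F ∪ G) = mass F + mass G :=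
  sum_union h

lemma mass_union_le (F G : Finset Str) : mass (F ∪ G) ≤ mass F + mass G := by
  have h := sum_union_inter (s₁ := F) (s₂ := G) (f := fun p : Str => (1 / 2 : ℝ) ^ p.length)
  have h2 : 0 ≤ mass (F ∩ G) := mass_nonneg _
  unfold mass at *
  linarith

section game

variable (B D : ℕ → Finset Str)

/-- mass of the programs born after `S` and dead at `t` -/
noncomputable def New (S t : ℕ) : ℝ := mass (D t \ B S)
/-- mass of the programs born by `S` which died between `S` and `t` -/
noncomputable def Old (S t : ℕ) : ℝ := mass ((D t \ D S) ∩ B S)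
/-- the error weight -/
noncomputable def rho (S t : ℕ) : ℝ := mass (D t) - mass (D S) + ∑ s ∈ Ico S t, (1 / 2 : ℝ) ^ s

variable {B D} (hB : Monotone B) (hD : Monotone D) (hDB : ∀ s, D s ⊆ B s)
  (hlen : ∀ s, ∀ p ∈ B s, p.length ≤ s)

lemma New_nonneg (S t : ℕ) : 0 ≤ New B D S t := mass_nonneg _
lemma Old_nonneg (S t : ℕ) : 0 ≤ Old B D S t := mass_nonneg _

include hD in
lemma rho_nonneg {S t : ℕ} (h : S ≤ t) : 0 ≤ rho D S t := by
  unfold rho
  have h1 := mass_mono (hD h)
  have h2 : 0 ≤ ∑ s ∈ Ico S t, (1 / 2 : ℝ) ^ s := sum_nonneg fun _ _ => by positivity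
  linarith

lemma rho_add {S t u : ℕ} (h : S ≤ t) (h' : t ≤ u) : rho D S u = rho D S t + rho D t u := by
  unfold rho
  have := Finset.sum_Ico_consecutive (fun s => (1 / 2 : ℝ) ^ s) h h'
  linarith

include hD in
lemma rho_mono {S t u : ℕ} (h : S ≤ t) (h' : t ≤ u) : rho D S t ≤ rho D S u := by
  rw [rho_add h h']
  have := rho_nonneg hD h'
  linarith

include hB hD hDB in
lemma New_split {S t u : ℕ} (h : S ≤ t) (h' : t ≤ u) :
    New B D S u = New B D S t + mass ((D u \ D t) ∩ (B t \ B S)) + New B D t u := by
  unfold New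
  rw [← mass_union, ← mass_union]
  · congr 1
    ext p
    simp only [mem_sdiff, mem_union, mem_inter]
    have h1 : p ∈ D t → p ∈ D u := fun hp => hD h' hp
    have h2 : p ∈ D t → p ∈ B t := fun hp => hDB t hp
    have h3 : p ∈ B S → p ∈ B t := fun hp => hB h hp
    tauto
  · rw [disjoint_left]
    intro p
    simp only [mem_sdiff, mem_union, mem_inter]
    have h2 : p ∈ D t → p ∈ B t := fun hp => hDB t hp
    tauto
  · rw [disjoint_left]
    intro p
    simp only [mem_sdiff, mem_union, mem_inter]
    tauto

include hD in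
lemma Old_split {S t u : ℕ} (h : S ≤ t) (h' : t ≤ u) :
    Old B D S u = Old B D S t + mass ((D u \ D t) ∩ B S) := by
  unfold Old
  rw [← mass_union]
  · congr 1
    ext p
    simp only [mem_sdiff, mem_union, mem_inter]
    have h1 : p ∈ D t → p ∈ D u := fun hp => hD h' hp
    have h2 : p ∈ D S → p ∈ D t := fun hp => hD h hp
    tauto
  · rw [disjoint_left]
    intro p
    simp only [mem_sdiff, mem_inter]
    tauto

include hB in
lemma Old_eq {S t u : ℕ} (h : S ≤ t) :
    Old B D t u = mass ((D u \ D t) ∩ B S) + mass ((D u \ D t) ∩ (B t \ B S)) := by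
  unfold Old
  rw [← mass_union]
  · congr 1
    ext p
    simp only [mem_sdiff, mem_union, mem_inter]
    have h3 : p ∈ B S → p ∈ B t := fun hp => hB h hp
    tauto
  · rw [disjoint_left]
    intro p
    simp only [mem_sdiff, mem_inter]
    tauto

include hB in
lemma live_le {t u : ℕ} (h : t ≤ u) :
    mass (B t \ D t) ≤ mass (B u \ D u) + Old B D t u := by
  refine (mass_mono ?_).trans (mass_union_le _ _)
  intro p
  simp only [mem_sdiff, mem_union, mem_inter]
  have h3 : p ∈ B t → p ∈ B u := fun hp => hB h hp
  tauto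

include hD in
lemma Old_le (S : ℕ) {t : ℕ} (h : S ≤ t) : Old B D S t ≤ mass (D t) - mass (D S) := by
  have h1 : mass (D t) = mass (D S) + mass (D t \ D S) := by
    rw [← mass_union disjoint_sdiff]
    congr 1
    rw [union_sdiff_of_subset (hD h)]
  have h2 : Old B D S t ≤ mass (D t \ D S) := mass_mono inter_subset_left
  linarith

variable {vv : ℕ → ℝ → ℝ} (hv1 : ∀ c y, vv c y ≤ (1 / 2 : ℝ) ^ c) (hv0 : ∀ c y, 0 ≤ vv c y)
  (hvm : ∀ c, Monotone (vv c)) (hvl : ∀ c y z, y ≤ z → vv c z ≤ vv c y + (z - y))
  {a : ℕ → ℝ} (k : ℕ)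

variable (B D a) in
/-- the current value -/
noncomputable def WW (s : ℕ) : ℝ := mass (B s \ D s) + a s

include hB hD hDB hlen hv1 hv0 hvm hvl in
lemma key {S t u : ℕ} (h : S ≤ t) (h' : t ≤ u) :
    vv (S + k) (WW B D a t + (a u - a t)) + New B D S t + (1 / 2) ^ k * Old B D S t + New B D t u ≤
      vv (S + k) (WW B D a u) + New B D S u + (1 / 2) ^ k * Old B D S u := by
  rw [New_split hB hD hDB h h', Old_split hD h h']
  have h1 := live_le (D := D) hB h'
  rw [Old_eq hB h] at h1
  set o := mass ((D u \ D t) ∩ B S) with ho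
  set m := mass ((D u \ D t) ∩ (B t \ B S)) with hm
  have ho0 : 0 ≤ o := mass_nonneg _
  have hm0 : 0 ≤ m := mass_nonneg _
  by_cases he : (D u \ D t) ∩ B S = ∅
  · have ho' : o = 0 := by rw [ho, he]; simp [mass]
    rw [ho'] at h1 ⊢
    have h2 : WW B D a t + (a u - a t) ≤ WW B D a u + m := by
      unfold WW; linarith
    have h3 := hvm (S + k) h2
    have h4 := hvl (S + k) (WW B D a u) (WW B D a u + m) (by linarith)
    linarith
  · obtain ⟨p, hp⟩ := Finset.nonempty_iff_ne_empty.2 he
    have hpS : p.length ≤ S := hlen S p (mem_inter.1 hp).2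
    have h2 : (1 / 2 : ℝ) ^ S ≤ o := by
      have h3 : (1 / 2 : ℝ) ^ p.length ≤ o :=
        single_le_sum (f := fun p : Str => (1 / 2 : ℝ) ^ p.length) (fun _ _ => by positivity) hp
      refine le_trans ?_ h3
      exact pow_le_pow_of_le_one (by norm_num) (by norm_num) hpS
    have h3 : vv (S + k) (WW B D a t + (a u - a t)) ≤ (1 / 2) ^ k * o := by
      refine (hv1 _ _).trans ?_
      rw [pow_add, mul_comm]
      exact mul_le_mul_of_nonneg_left h2 (by positivity)
    have h4 := hv0 (S + k) (WW B D a u)
    linarith

end game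

section attack

variable {B D : ℕ → Finset Str} (hB : Monotone B) (hD : Monotone D) (hDB : ∀ s, D s ⊆ B s)
  (hlen : ∀ s, ∀ p ∈ B s, p.length ≤ s)
  {vv : ℕ → ℝ → ℝ} (hv1 : ∀ c y, vv c y ≤ (1 / 2 : ℝ) ^ c) (hv0 : ∀ c y, 0 ≤ vv c y)
  (hvm : ∀ c, Monotone (vv c)) (hvl : ∀ c y z, y ≤ z → vv c z ≤ vv c y + (z - y))
  {e : ℕ → ℕ → ℝ} {Sg : ℕ → ℕ → ℕ} {lev : ℕ → ℕ} {r : ℕ → ℝ} {T k : ℕ}

/-- The rules of the attack. -/
structure Rules (e : ℕ → ℕ → ℝ) (Sg : ℕ → ℕ → ℕ) (lev : ℕ → ℕ) (r : ℕ → ℝ) (T : ℕ) : Prop where
  lev_pos : ∀ s, 1 ≤ lev s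
  lev_le : ∀ s, lev s ≤ T + 1
  r_nonneg : ∀ s, 0 ≤ r s
  idle_e : ∀ s, r s = 0 → ∀ l ≤ T, e l (s + 1) = e l s
  idle_S : ∀ s, r s = 0 → ∀ l ≤ T, Sg l (s + 1) = Sg l s
  act_lev : ∀ s, 0 < r s → lev s ≤ T
  act_new : ∀ s, 0 < r s → e (lev s - 1) (s + 1) = e 0 s + r s
  act_old : ∀ s, 0 < r s → ∀ l ≤ T, l ≠ lev s - 1 → e l (s + 1) = e l s
  act_S : ∀ s, 0 < r s → ∀ l < lev s, Sg l (s + 1) = s
  act_S' : ∀ s, 0 < r s → ∀ l ≤ T, lev s ≤ l → Sg l (s + 1) = Sg l s
  act_le : ∀ s, 0 < r s → e 0 s + r s ≤ e (lev s) s
  below : ∀ s, ∀ i < lev s, e i s ≤ e 0 s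
  above : ∀ s, lev s ≤ T → e 0 s < e (lev s) s
  nest0 : ∀ i j, lev 0 ≤ i → i ≤ j → j ≤ T → e i 0 ≤ e j 0

variable (R : Rules e Sg lev r T)
include R

lemma lev_ge {s l : ℕ} (h : ∀ i < l, e i s ≤ e 0 s) (hl : l ≤ T + 1) : l ≤ lev s := by
  by_contra hcon
  push Not at hcon
  have h1 := R.above s (by omega)
  have h2 := h _ hcon
  linarith

lemma nest (s : ℕ) : ∀ i j, lev s ≤ i → i ≤ j → j ≤ T → e i s ≤ e j s := by
  induction s with
  | zero => exact R.nest0
  | succ s ih =>
    intro i j hi hij hj
    rcases (R.r_nonneg s).eq_or_lt with h0 | h0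
    · have h0' := h0.symm
      rw [R.idle_e s h0' i (by omega), R.idle_e s h0' j hj]
      refine ih i j ?_ hij hj
      by_contra hcon
      push Not at hcon
      -- i < lev s but lev (s+1) ≤ i
      have h1 : lev s ≤ lev (s + 1) := by
        refine lev_ge R (fun i' hi' => ?_) (R.lev_le s)
        have := R.below s i' hi'
        have h3 := R.lev_le s
        rw [R.idle_e s h0' i' (by omega), R.idle_e s h0' 0 (by omega)]
        exact this
      omega
    · have hlT := R.act_lev s h0
      have hlp := R.lev_pos s
      -- lev (s+1) ≥ lev s - 1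
      have hlow : lev s - 1 ≤ lev (s + 1) := by
        refine lev_ge R (fun i' hi' => ?_) (by omega)
        rw [R.act_old s h0 i' (by omega) (by omega)]
        have h1 := R.below s i' (by omega)
        rcases Nat.eq_zero_or_pos (lev s - 1) with h2 | h2
        · omega
        · rw [R.act_old s h0 0 (by omega) (by omega)]
          exact h1
      have hip := R.lev_pos (s + 1)
      rcases Nat.lt_or_ge (lev s - 1) i with h1 | h1
      · rw [R.act_old s h0 i (by omega) (by omega), R.act_old s h0 j hj (by omega)]
        exact ih i j (by omega) hij hj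
      · have hi' : i = lev s - 1 := by omega
        rcases Nat.lt_or_ge i j with h2 | h2
        · rw [hi', R.act_new s h0, R.act_old s h0 j hj (by omega)]
          exact (R.act_le s h0).trans (ih _ j le_rfl (by omega) hj)
        · have : i = j := by omega
          rw [this]

/-- a child attack spends exactly its budget -/
lemma child_end {t u l : ℕ} (hl : lev t = l) (h0 : 0 < r t) (htu : t < u)
    (hmid : ∀ s, t < s → s < u → lev s < l) (hu : l ≤ lev u) : e 0 u = e 0 t + r t := by
  have hlT : l ≤ T := hl ▸ R.act_lev t h0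
  have hlp : 1 ≤ l := hl ▸ R.lev_pos t
  rcases Nat.lt_or_ge 1 l with h1 | h1
  · -- l ≥ 2
    have hconst : ∀ s, t < s → s ≤ u → e (l - 1) s = e 0 t + r t := by
      intro s hs
      induction s, hs using Nat.le_induction with
      | base =>
        intro _
        have := R.act_new t h0
        rw [hl] at this
        exact this
      | succ s hs ih =>
        intro hsu
        have ih' := ih (by omega)
        have hlt := hmid s hs (by omega)
        rcases (R.r_nonneg s).eq_or_lt with h2 | h2
        · rw [R.idle_e s h2.symm _ (by omega), ih']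
        · rw [R.act_old s h2 _ (by omega) (by omega), ih']
    have hub : ∀ s, t < s → s ≤ u → e 0 s ≤ e 0 t + r t := by
      intro s hs
      induction s, hs using Nat.le_induction with
      | base =>
        intro _
        rw [R.act_old t h0 0 (by omega) (by omega)]
        linarith
      | succ s hs ih =>
        intro hsu
        have ih' := ih (by omega)
        have hlt := hmid s hs (by omega)
        rcases (R.r_nonneg s).eq_or_lt with h2 | h2
        · rw [R.idle_e s h2.symm _ (by omega)]; exact ih'
        · rcases Nat.lt_or_ge 1 (lev s) with h3 | h3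
          · rw [R.act_old s h2 0 (by omega) (by omega)]; exact ih'
          · have h4 : lev s = 1 := le_antisymm h3 (R.lev_pos s)
            have h5 := R.act_new s h2
            rw [h4] at h5
            rw [show e 0 (s + 1) = e 0 s + r s from h5]
            refine (R.act_le s h2).trans ?_
            rw [h4, ← hconst s hs (by omega)]
            exact nest R s 1 (l - 1) (by omega) (by omega) (by omega)
    have h2 := R.below u (l - 1) (by omega)
    rw [hconst u htu le_rfl] at h2
    exact le_antisymm (hub u htu le_rfl) h2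
  · have hl1 : l = 1 := by omega
    have hu' : u = t + 1 := by
      by_contra hcon
      have := hmid (t + 1) (by omega) (by omega)
      have := R.lev_pos (t + 1)
      omega
    rw [hu']
    have := R.act_new t h0
    rw [hl, hl1] at this
    exact this

include hB hD hDB hlen hv1 hv0 hvm hvl in
/-- The main inequality. -/
theorem main (hvi : ∀ s, 0 < r s → vv (Sg (lev s) s + k) (WW B D (e 0) s) + r s ≤
      vv (Sg (lev s) s + k) (WW B D (e 0) s + r s)) :
    ∀ l, 1 ≤ l → l ≤ T → ∀ S t0 t, S ≤ t0 → t0 ≤ t → e 0 t0 = e 0 S → Sg l t0 = S →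
      (∀ s, t0 ≤ s → s < t → lev s ≤ l) → l ≤ lev t0 → l ≤ lev t →
      (l : ℝ) * (e 0 t - e 0 S) ≤ vv (S + k) (WW B D (e 0) t) + New B D S t +
        (1 / 2) ^ k * Old B D S t + (l - 1) * ((1 / 2) ^ k * rho D S t) := by
  intro l
  induction l with
  | zero => intro h; omega
  | succ n ihl =>
    intro _ hlT S t0 t hS
    induction t using Nat.strong_induction_on with
    | _ t iht =>
    intro ht he hSg hact hlev0 hlev
    push_cast
    rw [add_sub_cancel_right]
    rcases Nat.eq_or_lt_of_le ht with h0 | h0
    · rw [← h0, he, sub_self, mul_zero]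
      have h1 := hv0 (S + k) (WW B D (e 0) t0)
      have h2 := New_nonneg (B := B) (D := D) S t0
      have h3 := Old_nonneg (B := B) (D := D) S t0
      have h4 := rho_nonneg hD hS
      positivity
    -- last quiet stage
    · classical
      set Q := (Ico t0 t).filter fun s => n + 1 ≤ lev s with hQ
      have hQn : Q.Nonempty := ⟨t0, mem_filter.2 ⟨mem_Ico.2 ⟨le_rfl, h0⟩, hlev0⟩⟩
      set t1 := Q.max' hQn with ht1
      have ht1Q : t1 ∈ Q := Q.max'_mem hQn
      rw [hQ, mem_filter, mem_Ico] at ht1Q
      obtain ⟨⟨h1, h2⟩, h3⟩ := ht1Q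
      have hmax : ∀ s, t1 < s → s < t → lev s < n + 1 := by
        intro s hs hst
        by_contra hcon
        push Not at hcon
        have : s ≤ t1 := Q.le_max' s (mem_filter.2 ⟨mem_Ico.2 ⟨by omega, hst⟩, hcon⟩)
        omega
      have hlt1 : lev t1 = n + 1 := le_antisymm (hact t1 h1 h2) h3
      have hSg1 : ∀ s, t0 ≤ s → s ≤ t → Sg (n + 1) s = S := by
        intro s hs
        induction s, hs using Nat.le_induction with
        | base => intro _; exact hSg
        | succ s hs ih =>
          intro hst
          rcases (R.r_nonneg s).eq_or_lt with h2 | h2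
          · rw [R.idle_S s h2.symm _ hlT]; exact ih (by omega)
          · rw [R.act_S' s h2 _ hlT (hact s hs (by omega))]; exact ih (by omega)
      have ih1 := iht t1 h2 h1 he hSg (fun s hs hst => hact s hs (by omega)) hlev0 h3
      push_cast at ih1
      rw [add_sub_cancel_right] at ih1
      have hkey := key (a := e 0) hB hD hDB hlen hv1 hv0 hvm hvl k (hS.trans h1) h2.le
      rcases (R.r_nonneg t1).eq_or_lt with h4 | h4
      · -- idle
        have h5 : n + 1 ≤ lev (t1 + 1) := by
          refine lev_ge R (fun i hi => ?_) (by omega)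
          rw [R.idle_e t1 h4.symm i (by omega), R.idle_e t1 h4.symm 0 (by omega)]
          exact R.below t1 i (by omega)
        have h6 : t = t1 + 1 := by
          by_contra hcon
          have := hmax (t1 + 1) (by omega) (by omega)
          omega
        have h7 : e 0 t = e 0 t1 := by rw [h6, R.idle_e t1 h4.symm 0 (by omega)]
        rw [h7, sub_self, add_zero] at hkey
        rw [h7]
        have h8 := rho_mono hD (hS.trans h1) h2.le
        have h9 := New_nonneg (B := B) (D := D) t1 t
        have h10 : (n : ℝ) * ((1 / 2) ^ k * rho D S t1) ≤ n * ((1 / 2) ^ k * rho D S t) := by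
          gcongr
        linarith
      · -- a child attack
        have hce := child_end R hlt1 h4 h2 hmax hlev
        have hcl : (n : ℝ) * (e 0 t - e 0 t1) ≤ New B D t1 t + n * ((1 / 2) ^ k * rho D t1 t) := by
          rcases Nat.eq_zero_or_pos n with hn | hn
          · rw [hn]
            simp only [Nat.cast_zero, zero_mul, add_zero]
            exact New_nonneg _ _
          · have h5 := ihl hn (by omega) t1 (t1 + 1) t (by omega) (by omega)
              (R.act_old t1 h4 0 (by omega) (by omega)) (R.act_S t1 h4 n (by omega))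
              (fun s hs hst => by have := hmax s (by omega) hst; omega)
              (lev_ge R (fun i hi => by
                rw [R.act_old t1 h4 i (by omega) (by omega), R.act_old t1 h4 0 (by omega) (by omega)]
                exact R.below t1 i (by omega)) (by omega)) (by omega)
            have h6 := hv1 (t1 + k) (WW B D (e 0) t)
            have h7 := Old_le (B := B) hD t1 h2.le
            have h8 : (1 / 2 : ℝ) ^ t1 ≤ ∑ s ∈ Ico t1 t, (1 / 2 : ℝ) ^ s :=
              single_le_sum (f := fun s => (1 / 2 : ℝ) ^ s) (fun _ _ => by positivity)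
                (mem_Ico.2 ⟨le_rfl, h2⟩)
            have h9 : (1 / 2 : ℝ) ^ (t1 + k) + (1 / 2) ^ k * Old B D t1 t ≤
                (1 / 2) ^ k * rho D t1 t := by
              rw [pow_add, mul_comm ((1 / 2 : ℝ) ^ t1), ← mul_add]
              refine mul_le_mul_of_nonneg_left ?_ (by positivity)
              unfold rho
              linarith
            linarith
        have hvi' := hvi t1 h4
        rw [hlt1, hSg1 t1 h1 h2.le] at hvi'
        have h5 : e 0 t - e 0 t1 = r t1 := by linarith
        rw [h5] at hkey hcl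
        have h6 := rho_add (D := D) (hS.trans h1) h2.le
        rw [h6]
        have h7 : e 0 t - e 0 S = (e 0 t1 - e 0 S) + r t1 := by linarith
        rw [h7]
        have h8 : (n : ℝ) * ((1 / 2) ^ k * (rho D S t1 + rho D t1 t)) =
          n * ((1 / 2) ^ k * rho D S t1) + n * ((1 / 2) ^ k * rho D t1 t) := by ring
        rw [h8]
        have h9 : ((n : ℝ) + 1) * (e 0 t1 - e 0 S + r t1) =
          ((n : ℝ) + 1) * (e 0 t1 - e 0 S) + n * r t1 + r t1 := by ring
        rw [h9]
        linarith

/-- Liveness: all levels are eventually finished. -/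
theorem live (hlive : ∀ l ≤ T, ∀ S : ℕ, ∃ δ > 0, ∃ s0, ∀ s ≥ s0, lev s = l → Sg l s = S →
      min (e l s - e 0 s) δ ≤ r s) : ∀ l ≤ T, ∀ s0, ∃ s ≥ s0, l < lev s := by
  intro l
  induction l with
  | zero => intro _ s0; exact ⟨s0, le_rfl, R.lev_pos s0⟩
  | succ n ih =>
    intro hlT s0
    by_contra hcon
    push Not at hcon
    have ih' := ih (by omega)
    have hS : ∀ s, s0 ≤ s → Sg (n + 1) s = Sg (n + 1) s0 := by
      intro s hs
      induction s, hs using Nat.le_induction with
      | base => rfl
      | succ s hs ih =>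
        rcases (R.r_nonneg s).eq_or_lt with h2 | h2
        · rw [R.idle_S s h2.symm _ hlT]; exact ih
        · rw [R.act_S' s h2 _ hlT (hcon s hs)]; exact ih
    have hE : ∀ s, s0 ≤ s → e (n + 1) s = e (n + 1) s0 := by
      intro s hs
      induction s, hs using Nat.le_induction with
      | base => rfl
      | succ s hs ih =>
        rcases (R.r_nonneg s).eq_or_lt with h2 | h2
        · rw [R.idle_e s h2.symm _ hlT]; exact ih
        · have := hcon s hs
          rw [R.act_old s h2 _ hlT (by omega)]; exact ih
    obtain ⟨δ, hδ, s1, hs1⟩ := hlive (n + 1) hlT (Sg (n + 1) s0)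
    have hstep : ∀ N : ℕ, ∃ s, max s0 s1 ≤ s ∧ lev s = n + 1 ∧ e 0 (max s0 s1) + N * δ ≤ e 0 s := by
      -- monotone a
      have hmono : ∀ s u, s ≤ u → e 0 s ≤ e 0 u := by
        intro s u hsu
        induction u, hsu using Nat.le_induction with
        | base => exact le_rfl
        | succ u hu ih =>
          refine ih.trans ?_
          rcases (R.r_nonneg u).eq_or_lt with h2 | h2
          · rw [R.idle_e u h2.symm 0 (by omega)]
          · by_cases h3 : lev u - 1 = 0
            · have := R.act_new u h2
              rw [h3] at this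
              rw [this]; linarith
            · rw [R.act_old u h2 0 (by omega) (by omega)]
      intro N
      induction N with
      | zero =>
        obtain ⟨s, hs, hl⟩ := ih' (max s0 s1)
        have := hcon s (le_trans (le_max_left _ _) hs)
        refine ⟨s, hs, by omega, ?_⟩
        simp only [Nat.cast_zero, zero_mul, add_zero]
        exact hmono _ _ hs
      | succ N ihN =>
        obtain ⟨s, hs, hl, hN⟩ := ihN
        have hs0 : s0 ≤ s := le_trans (le_max_left _ _) hs
        have hr := hs1 s (le_trans (le_max_right _ _) hs) hl (hS s hs0)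
        have hab := R.above s (by omega)
        rw [hl] at hab
        have hrp : 0 < r s := lt_of_lt_of_le (lt_min (by linarith) hδ) hr
        -- next quiet stage
        classical
        have hex : ∃ u, s < u ∧ n + 1 ≤ lev u := by
          obtain ⟨u, hu, hlu⟩ := ih' (s + 1)
          exact ⟨u, by omega, by omega⟩
        set u := Nat.find hex with hu
        obtain ⟨hsu, hlu⟩ := Nat.find_spec hex
        have hmid : ∀ v, s < v → v < u → lev v < n + 1 := by
          intro v hv hvu
          by_contra hcon'
          push Not at hcon'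
          exact absurd (Nat.find_min' hex ⟨hv, hcon'⟩) (by omega)
        have hce := child_end R hl hrp hsu hmid hlu
        have hlu' : lev u = n + 1 := le_antisymm (hcon u (by omega)) hlu
        have hab' := R.above u (by omega)
        rw [hlu', hE u (by omega), hce] at hab'
        rw [hE s hs0] at hr
        have hδr : δ ≤ r s := by
          by_contra hlt
          push Not at hlt
          have : e (n + 1) s0 - e 0 s ≤ r s := by
            rcases min_le_iff.1 hr with h | h
            · exact h
            · linarith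
          linarith
        refine ⟨u, by omega, hlu', ?_⟩
        rw [hce]
        push_cast
        linarith
    obtain ⟨N, hN⟩ := exists_nat_gt ((e (n + 1) s0 - e 0 (max s0 s1)) / δ)
    obtain ⟨s, hs, hl, hNs⟩ := hstep N
    have hab := R.above s (by omega)
    rw [hl, hE s (le_trans (le_max_left _ _) hs)] at hab
    rw [div_lt_iff₀ hδ] at hN
    linarith

end attack

end Pool.Agent.V11238.Om
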