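import Mathlib
import Pool.Agent.H561R3.Om.Strat
import Pool.Agent.H561R3.Om.Meas
import Pool.Agent.V11238.Om.Comb

/-!
The concrete attack satisfies the rules.
-/

set_option autoImplicit false

namespace Pool.Agent.V11238.Om

open Finset Encodable Pool.Agent.H561R3 Pool.Agent.H561R3.Om Filter Topology

/-! ### finite sets of strings -/

lemma nodup_upTo (s : ℕ) : (upTo s).Nodup := by
  unfold upTo
  rw [List.nodup_flatMap]
  refine ⟨fun x _ => nodup_strs x, ?_⟩
  refine List.Pairwise.imp ?_ List.nodup_range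
  intro a b hab
  simp only [Function.onFun, List.Disjoint]
  intro c h1 h2
  rw [mem_strs] at h1 h2
  exact hab (h1 ▸ h2 ▸ rfl)

section approx

open Classical

variable (qU : Str × Str → ℕ → Prop) (qW : Str → ℕ → Prop) (κ : Str)

noncomputable def Bf (s : ℕ) : Finset Str := (upTo s).toFinset.filter (bornP qU κ s)
noncomputable def Df (s : ℕ) : Finset Str := (upTo s).toFinset.filter (goneP qU qW κ s)

variable {qU qW κ}

lemma mem_Bf {s : ℕ} {p : Str} : p ∈ Bf qU κ s ↔ bornP qU κ s p := by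
  unfold Bf
  rw [mem_filter, List.mem_toFinset, mem_upTo]
  exact ⟨fun h => h.2, fun h => ⟨h.1, h⟩⟩

lemma mem_Df {s : ℕ} {p : Str} : p ∈ Df qU qW κ s ↔ goneP qU qW κ s p := by
  unfold Df
  rw [mem_filter, List.mem_toFinset, mem_upTo]
  exact ⟨fun h => h.2, fun h => ⟨h.1.1, h⟩⟩

lemma Df_sub (s : ℕ) : Df qU qW κ s ⊆ Bf qU κ s := fun p hp => mem_Bf.2 (mem_Df.1 hp).1

lemma Bf_len (s : ℕ) : ∀ p ∈ Bf qU κ s, p.length ≤ s := fun _ hp => (mem_Bf.1 hp).1

variable (hU : ∀ a m n, m ≤ n → qU a m → qU a n) (hW : ∀ a m n, m ≤ n → qW a m → qW a n)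

include hU in
lemma Bf_mono : Monotone (Bf qU κ) := by
  intro s t hst p hp
  rw [mem_Bf] at hp ⊢
  obtain ⟨h1, h2, x, h3, h4⟩ := hp
  exact ⟨h1.trans hst, h2, x, cand_mono hst h3, hU _ _ _ hst h4⟩

include hU hW in
lemma Df_mono : Monotone (Df qU qW κ) := by
  intro s t hst p hp
  rw [mem_Df] at hp ⊢
  obtain ⟨h1, x, h3, h4, h5⟩ := hp
  exact ⟨mem_Bf.1 (Bf_mono hU hst (mem_Bf.2 h1)), x, cand_mono hst h3, hU _ _ _ hst h4,
    hW _ _ _ hst h5⟩

lemma nb_eq (s : ℕ) : (nb qU qW κ s : ℝ) = 2 ^ s * mass (Bf qU κ s \ Df qU qW κ s) := by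
  unfold nb mass
  have h1 : ((upTo s).map (fun p => if bornP qU κ s p ∧ ¬ goneP qU qW κ s p then
      2 ^ (s - p.length) else 0)).sum = ∑ p ∈ (upTo s).toFinset,
        if bornP qU κ s p ∧ ¬ goneP qU qW κ s p then 2 ^ (s - p.length) else 0 :=
    (List.sum_toFinset _ (nodup_upTo s)).symm
  rw [h1, ← sum_filter]
  have h2 : (upTo s).toFinset.filter (fun p => bornP qU κ s p ∧ ¬ goneP qU qW κ s p) =
      Bf qU κ s \ Df qU qW κ s := by
    ext p
    rw [Finset.mem_filter, Finset.mem_sdiff, mem_Bf, mem_Df, List.mem_toFinset, mem_upTo]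
    exact ⟨fun h => h.2, fun h => ⟨h.1.1, h⟩⟩
  rw [h2, mul_sum]
  push_cast
  refine sum_congr rfl fun p hp => ?_
  have : p.length ≤ s := Bf_len s p (Finset.mem_sdiff.1 hp).1
  rw [one_div, inv_pow, pow_sub₀ _ (by norm_num) this]

end approx

/-! ### the state machine -/

section machine

open Classical

variable (qU : Str × Str → ℕ → Prop) (qW : Str → ℕ → Prop) (qV : ℕ × IC → ℕ → Prop) (κ : Str)

/-- the unit at stage `s` -/
noncomputable def uu (s : ℕ) : ℝ := (1 / 2 : ℝ) ^ (s + κ.length)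

noncomputable def ee (l s : ℕ) : ℝ := gE (ST qU qW qV κ s) l * uu κ s
noncomputable def sg (l s : ℕ) : ℕ := gS (ST qU qW qV κ s) l
noncomputable def lv (s : ℕ) : ℕ := lev (ST qU qW qV κ s)
noncomputable def am (s : ℕ) : ℕ := amt qU qW qV κ s (ST qU qW qV κ s)
noncomputable def rr (s : ℕ) : ℝ := am qU qW qV κ s * uu κ s

variable {qU qW qV κ}

lemma uu_pos (s : ℕ) : 0 < uu κ s := by unfold uu; positivity

lemma uu_succ (s : ℕ) : uu κ s = 2 * uu κ (s + 1) := by
  unfold uu
  rw [show s + 1 + κ.length = (s + κ.length) + 1 by ring, pow_succ]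
  ring

lemma ST_len (s : ℕ) : (ST qU qW qV κ s).length = TT κ + 1 := by
  induction s with
  | zero =>
    show (ini κ).length = _
    simp [ini]
  | succ s ih =>
    show (stepL qU qW qV κ s (ST qU qW qV κ s)).length = _
    unfold stepL
    rw [List.length_map, List.length_range, ih]

lemma ST_getD (s l : ℕ) (hl : l ≤ TT κ) : (ST qU qW qV κ (s + 1)).getD l (0, 0) =
    if am qU qW qV κ s = 0 then (2 * gE (ST qU qW qV κ s) l, gS (ST qU qW qV κ s) l)
    else (if l + 1 = lev (ST qU qW qV κ s) then 2 * (gE (ST qU qW qV κ s) 0 + am qU qW qV κ s)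
        else 2 * gE (ST qU qW qV κ s) l,
      if l < lev (ST qU qW qV κ s) then s else gS (ST qU qW qV κ s) l) := by
  show (stepL qU qW qV κ s (ST qU qW qV κ s)).getD l (0, 0) = _
  unfold stepL
  rw [List.getD_eq_getElem _ _ (by rw [List.length_map, List.length_range, ST_len]; omega)]
  rw [List.getElem_map, List.getElem_range]
  rfl

lemma gE_zero (l : ℕ) (hl : l ≤ TT κ) : gE (ST qU qW qV κ 0) l = if l = TT κ then 1 else 0 := by
  show gE (ini κ) l = _
  unfold gE ini
  rw [List.getD_eq_getElem _ _ (by simp; omega), List.getElem_map, List.getElem_range]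

lemma lev_lt {s i : ℕ} (h : i < lv qU qW qV κ s) :
    gE (ST qU qW qV κ s) i ≤ gE (ST qU qW qV κ s) 0 := by
  by_contra hcon
  push Not at hcon
  unfold lv lev at h
  have hi : i < (ST qU qW qV κ s).length := lt_of_lt_of_le h List.findIdx_le_length
  have h2 := List.not_of_lt_findIdx h
  revert h2
  simp only [imp_false]
  have h3 : gE (ST qU qW qV κ s) i = ((ST qU qW qV κ s)[i]).1 := by
    unfold gE
    rw [List.getD_eq_getElem _ _ hi]
  rw [h3] at hcon
  simpa using hcon

lemma lv_le (s : ℕ) : lv qU qW qV κ s ≤ TT κ + 1 := by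
  unfold lv lev
  rw [← ST_len (qU := qU) (qW := qW) (qV := qV) (κ := κ) s]
  exact List.findIdx_le_length

lemma lev_spec {s : ℕ} (h : lv qU qW qV κ s ≤ TT κ) :
    gE (ST qU qW qV κ s) 0 < gE (ST qU qW qV κ s) (lv qU qW qV κ s) := by
  have h1 : lv qU qW qV κ s < (ST qU qW qV κ s).length := by rw [ST_len]; omega
  have h2 := @List.findIdx_getElem _ (fun x : ℕ × ℕ => decide (gE (ST qU qW qV κ s) 0 < x.1))
    (ST qU qW qV κ s) h1
  simp only [decide_eq_true_eq] at h2
  have h3 : gE (ST qU qW qV κ s) (lv qU qW qV κ s) = ((ST qU qW qV κ s)[lv qU qW qV κ s]).1 := by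
    unfold gE
    rw [List.getD_eq_getElem _ _ h1]
  rw [h3]
  exact h2

lemma lv_pos (s : ℕ) : 1 ≤ lv qU qW qV κ s := by
  by_contra hcon
  have h0 : lv qU qW qV κ s = 0 := by omega
  have := lev_spec (qU := qU) (qW := qW) (qV := qV) (κ := κ) (s := s) (by omega)
  rw [h0] at this
  exact lt_irrefl _ this

lemma am_le (s : ℕ) : am qU qW qV κ s ≤
    gE (ST qU qW qV κ s) (lv qU qW qV κ s) - gE (ST qU qW qV κ s) 0 := by
  unfold am amt
  exact Nat.findGreatest_le _

lemma am_lv {s : ℕ} (h : am qU qW qV κ s ≠ 0) : lv qU qW qV κ s ≤ TT κ := by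
  by_contra hcon
  have h1 := am_le (qU := qU) (qW := qW) (qV := qV) (κ := κ) s
  have h2 : gE (ST qU qW qV κ s) (lv qU qW qV κ s) = 0 := by
    unfold gE
    rw [List.getD_eq_default]
    rw [ST_len]; omega
  rw [h2] at h1
  omega

lemma am_spec {s : ℕ} (h : am qU qW qV κ s ≠ 0) : Act qU qW qV κ s (gE (ST qU qW qV κ s) 0)
    (gS (ST qU qW qV κ s) (lv qU qW qV κ s) + kk κ) (am qU qW qV κ s) := by
  unfold am amt at h ⊢
  exact Nat.findGreatest_of_ne_zero rfl h

lemma am_ge {s r : ℕ} (h1 : r ≤ gE (ST qU qW qV κ s) (lv qU qW qV κ s) -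
    gE (ST qU qW qV κ s) 0) (h2 : Act qU qW qV κ s (gE (ST qU qW qV κ s) 0)
    (gS (ST qU qW qV κ s) (lv qU qW qV κ s) + kk κ) r) : r ≤ am qU qW qV κ s := by
  unfold am amt
  exact Nat.le_findGreatest h1 h2

lemma rr_pos_iff {s : ℕ} : 0 < rr qU qW qV κ s ↔ am qU qW qV κ s ≠ 0 := by
  unfold rr
  constructor
  · intro h h0
    rw [h0] at h
    simp at h
  · intro h
    have : (0 : ℝ) < am qU qW qV κ s := by exact_mod_cast Nat.pos_of_ne_zero h
    exact mul_pos this (uu_pos s)

lemma rr_zero_iff {s : ℕ} : rr qU qW qV κ s = 0 ↔ am qU qW qV κ s = 0 := by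
  unfold rr
  rw [mul_eq_zero]
  have := (uu_pos (κ := κ) s).ne'
  simp [this]

variable (qU qW qV κ) in
theorem rules : Rules (ee qU qW qV κ) (sg qU qW qV κ) (lv qU qW qV κ) (rr qU qW qV κ) (TT κ) where
  lev_pos := lv_pos
  lev_le := lv_le
  r_nonneg s := by unfold rr; exact mul_nonneg (Nat.cast_nonneg _) (uu_pos s).le
  idle_e s h l hl := by
    unfold ee gE
    rw [ST_getD s l hl, if_pos (rr_zero_iff.1 h), uu_succ s]
    unfold gE
    push_cast
    ring
  idle_S s h l hl := by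
    unfold sg gS
    rw [ST_getD s l hl, if_pos (rr_zero_iff.1 h)]
    rfl
  act_lev s h := am_lv (rr_pos_iff.1 h)
  act_new s h := by
    have h1 := am_lv (rr_pos_iff.1 h)
    have h2 := lv_pos (qU := qU) (qW := qW) (qV := qV) (κ := κ) s
    unfold ee
    conv_lhs => unfold gE
    rw [ST_getD s _ (by omega), if_neg (rr_pos_iff.1 h)]
    simp only
    rw [if_pos (by show _ = lv qU qW qV κ s; omega), uu_succ s]
    unfold rr
    rw [uu_succ s]
    push_cast
    ring
  act_old s h l hl hne := by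
    have h2 := lv_pos (qU := qU) (qW := qW) (qV := qV) (κ := κ) s
    unfold ee
    conv_lhs => unfold gE
    rw [ST_getD s _ hl, if_neg (rr_pos_iff.1 h)]
    simp only
    rw [if_neg (by show ¬ _ = lv qU qW qV κ s; omega), uu_succ s]
    push_cast
    ring
  act_S s h l hl := by
    have h1 := am_lv (rr_pos_iff.1 h)
    unfold sg gS
    rw [ST_getD s l (by omega), if_neg (rr_pos_iff.1 h)]
    simp only
    rw [if_pos (show l < lev (ST qU qW qV κ s) from hl)]
  act_S' s h l hl hge := by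
    unfold sg gS
    rw [ST_getD s l hl, if_neg (rr_pos_iff.1 h)]
    simp only
    rw [if_neg (show ¬ l < lev (ST qU qW qV κ s) from not_lt.2 hge)]
    rfl
  act_le s h := by
    have h1 := am_le (qU := qU) (qW := qW) (qV := qV) (κ := κ) s
    have h2 := lev_spec (am_lv (rr_pos_iff.1 h))
    unfold ee rr
    rw [← add_mul]
    refine mul_le_mul_of_nonneg_right ?_ (uu_pos s).le
    have h3 : gE (ST qU qW qV κ s) 0 + am qU qW qV κ s ≤
      gE (ST qU qW qV κ s) (lv qU qW qV κ s) := by omega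
    exact_mod_cast h3
  below s i hi := by
    unfold ee
    refine mul_le_mul_of_nonneg_right ?_ (uu_pos s).le
    exact_mod_cast lev_lt hi
  above s h := by
    unfold ee
    refine mul_lt_mul_of_pos_right ?_ (uu_pos s)
    exact_mod_cast lev_spec h
  nest0 i j hi hij hj := by
    have h0 : TT κ ≤ lv qU qW qV κ 0 := by
      by_contra hcon
      push Not at hcon
      have h1 := lev_spec (qU := qU) (qW := qW) (qV := qV) (κ := κ) (s := 0) hcon.le
      rw [gE_zero _ hcon.le, if_neg hcon.ne] at h1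
      omega
    have : i = j := by omega
    rw [this]

end machine

end Pool.Agent.V11238.Om
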