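import Mathlib
import Pool.Agent.V11238.Om.Conc

/-!
From the discrete moves to real inequalities, and the contradiction.
-/

set_option autoImplicit false

namespace Pool.Agent.V11238.Om

open Finset Encodable Pool.Agent.H561R3 Pool.Agent.H561R3.Om Filter Topology

section conc

variable (qU : Str × Str → ℕ → Prop) (qW : Str → ℕ → Prop) (qV : ℕ × IC → ℕ → Prop) (κ : Str)

noncomputable def Wc (s : ℕ) : ℝ := WW (Bf qU κ) (Df qU qW κ) (ee qU qW qV κ 0) s

variable {qU qW qV κ}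

lemma Wc_eq (s : ℕ) : Wc qU qW qV κ s =
    NN qU qW κ s (gE (ST qU qW qV κ s) 0) * uu κ s := by
  unfold Wc WW NN
  push_cast
  rw [nb_eq, add_mul]
  congr 1
  unfold uu
  rw [pow_add]
  have h1 : (2 : ℝ) ^ s * (1 / 2) ^ s = 1 := by rw [← mul_pow]; norm_num
  have h2 : (2 : ℝ) ^ κ.length * (1 / 2) ^ κ.length = 1 := by rw [← mul_pow]; norm_num
  calc mass (Bf qU κ s \ Df qU qW κ s) = mass (Bf qU κ s \ Df qU qW κ s) *
      (((2 : ℝ) ^ s * (1 / 2) ^ s) * ((2 : ℝ) ^ κ.length * (1 / 2) ^ κ.length)) := by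
        rw [h1, h2, mul_one, mul_one]
    _ = _ := by ring

lemma two_uu (s : ℕ) : (2 : ℝ) ^ (s + κ.length) * uu κ s = 1 := by
  unfold uu
  rw [← mul_pow]
  norm_num

lemma act_iff (s e0 c r : ℕ) : Act qU qW qV κ s e0 c r ↔ ∃ t ∈ cand IC s, qV (c, t) s ∧
    ratOf t.1 < NN qU qW κ s e0 * uu κ s ∧ (NN qU qW κ s e0 + r : ℝ) * uu κ s ≤ ratOf t.2 := by
  unfold Act
  refine exists_congr fun t => and_congr_right fun _ => and_congr_right fun _ => ?_
  have hu := uu_pos (κ := κ) s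
  have h2 := two_uu (κ := κ) s
  have hp : (0 : ℝ) < 2 ^ (s + κ.length) := by positivity
  have ha : (0 : ℝ) < (t.1.2.2 : ℝ) + 1 := by positivity
  have hb : (0 : ℝ) < (t.2.2.2 : ℝ) + 1 := by positivity
  refine and_congr ?_ ?_
  · unfold ratOf
    rw [div_lt_iff₀ ha, ← Nat.cast_lt (α := ℝ)]
    push_cast
    constructor
    · intro h
      have h3 := mul_lt_mul_of_pos_right h hu
      have h4 : (t.1.1 : ℝ) * 2 ^ (s + κ.length) * uu κ s = t.1.1 := by rw [mul_assoc, h2, mul_one]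
      have h5 : ((NN qU qW κ s e0 : ℝ) * (t.1.2.2 + 1) + t.1.2.1 * 2 ^ (s + κ.length)) * uu κ s =
        (NN qU qW κ s e0 : ℝ) * uu κ s * (t.1.2.2 + 1) + t.1.2.1 := by
        rw [add_mul, mul_assoc (t.1.2.1 : ℝ), h2]; ring
      rw [h4, h5] at h3
      linarith
    · intro h
      have h3 := mul_lt_mul_of_pos_right h hp
      have h5 : (NN qU qW κ s e0 : ℝ) * uu κ s * (t.1.2.2 + 1) * 2 ^ (s + κ.length) =
        (NN qU qW κ s e0 : ℝ) * (t.1.2.2 + 1) * (2 ^ (s + κ.length) * uu κ s) := by ring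
      rw [h5, h2] at h3
      linarith
  · unfold ratOf
    rw [le_div_iff₀ hb, ← Nat.cast_le (α := ℝ)]
    push_cast
    constructor
    · intro h
      have h3 := mul_le_mul_of_nonneg_right h hu.le
      have h4 : (t.2.1 : ℝ) * 2 ^ (s + κ.length) * uu κ s = t.2.1 := by rw [mul_assoc, h2, mul_one]
      have h5 : (((NN qU qW κ s e0 : ℝ) + r) * (t.2.2.2 + 1) + t.2.2.1 * 2 ^ (s + κ.length)) *
        uu κ s = ((NN qU qW κ s e0 : ℝ) + r) * uu κ s * (t.2.2.2 + 1) + t.2.2.1 := by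
        rw [add_mul, mul_assoc (t.2.2.1 : ℝ), h2]; ring
      rw [h4, h5] at h3
      linarith
    · intro h
      have h3 := mul_le_mul_of_nonneg_right h hp.le
      have h5 : ((NN qU qW κ s e0 : ℝ) + r) * uu κ s * (t.2.2.2 + 1) * 2 ^ (s + κ.length) =
        ((NN qU qW κ s e0 : ℝ) + r) * (t.2.2.2 + 1) * (2 ^ (s + κ.length) * uu κ s) := by ring
      rw [h5, h2] at h3
      linarith

variable {V : ℕ → Set IC} (hqV : ∀ c t, t ∈ V c ↔ ∃ s, qV (c, t) s)
  (hmV : ∀ a m n, m ≤ n → qV a m → qV a n)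

include hqV in
lemma hvi (hV : ∀ n, MeasureTheory.volume (openOf (V n)) ≤ ENNReal.ofReal ((1 / 2 : ℝ) ^ n))
    (s : ℕ) (h : 0 < rr qU qW qV κ s) :
    vv V (sg qU qW qV κ (lv qU qW qV κ s) s + kk κ) (Wc qU qW qV κ s) + rr qU qW qV κ s ≤
      vv V (sg qU qW qV κ (lv qU qW qV κ s) s + kk κ) (Wc qU qW qV κ s + rr qU qW qV κ s) := by
  have h1 := am_spec (rr_pos_iff.1 h)
  rw [act_iff] at h1
  obtain ⟨t, _, ht, h2, h3⟩ := h1
  refine vv_grow hV _ _ _ h.le (t := t) ((hqV _ _).2 ⟨s, ht⟩) ?_ ?_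
  · rw [Wc_eq]; exact h2
  · rw [Wc_eq]
    unfold rr
    rw [← add_mul]
    exact h3

include hqV hmV in
lemma hlive {w : ℝ} (hw : ∀ c, w ∈ openOf (V c))
    (hlim : Tendsto (Wc qU qW qV κ) atTop (𝓝 w)) (l S : ℕ) :
    ∃ δ > 0, ∃ s0, ∀ s ≥ s0, lv qU qW qV κ s = l → sg qU qW qV κ l s = S →
      min (ee qU qW qV κ l s - ee qU qW qV κ 0 s) δ ≤ rr qU qW qV κ s := by
  obtain ⟨t, ht, h1, h2⟩ := hw (S + kk κ)
  rw [hqV] at ht
  obtain ⟨s1, hs1⟩ := ht
  -- the margin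
  set δ := (ratOf t.2 - w) / 4 with hδ
  have hδ0 : 0 < δ := by rw [hδ]; linarith
  have e1 : ∀ᶠ s in atTop, ratOf t.1 < Wc qU qW qV κ s := hlim.eventually (lt_mem_nhds h1)
  have e2 : ∀ᶠ s in atTop, Wc qU qW qV κ s < w + δ :=
    hlim.eventually (gt_mem_nhds (by linarith))
  have e3 : ∀ᶠ s in atTop, s1 ≤ s := eventually_ge_atTop s1
  have e4 : ∀ᶠ s in atTop, encode t < s := eventually_gt_atTop _
  have e5 : ∀ᶠ s in atTop, uu κ s < δ := by
    have h3 : Tendsto (fun s => uu κ s) atTop (𝓝 0) := by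
      unfold uu
      have := tendsto_pow_atTop_nhds_zero_of_lt_one (r := (1 / 2 : ℝ)) (by norm_num) (by norm_num)
      exact this.comp (tendsto_add_atTop_nat κ.length)
    exact h3.eventually (gt_mem_nhds hδ0)
  obtain ⟨s0, hs0⟩ := eventually_atTop.1 (e1.and (e2.and (e3.and (e4.and e5))))
  refine ⟨δ, hδ0, s0, fun s hs hl hS => ?_⟩
  obtain ⟨g1, g2, g3, g4, g5⟩ := hs0 s hs
  have hu := uu_pos (κ := κ) s
  -- the amount
  set n := gE (ST qU qW qV κ s) l - gE (ST qU qW qV κ s) 0 with hn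
  set r := min n ⌈δ / uu κ s⌉₊ with hr
  have hr1 : (r : ℝ) * uu κ s ≤ 2 * δ := by
    have h3 : (r : ℝ) ≤ δ / uu κ s + 1 := by
      have h4 : (r : ℝ) ≤ (⌈δ / uu κ s⌉₊ : ℝ) := by exact_mod_cast min_le_right _ _
      have h5 := Nat.ceil_lt_add_one (div_nonneg hδ0.le hu.le)
      linarith
    calc (r : ℝ) * uu κ s ≤ (δ / uu κ s + 1) * uu κ s := mul_le_mul_of_nonneg_right h3 hu.le
      _ = δ + uu κ s := by field_simp
      _ ≤ 2 * δ := by linarith
  have hact : Act qU qW qV κ s (gE (ST qU qW qV κ s) 0)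
      (gS (ST qU qW qV κ s) (lv qU qW qV κ s) + kk κ) r := by
    rw [act_iff]
    refine ⟨t, mem_cand_of_encode g4, ?_, ?_, ?_⟩
    · have h3 : gS (ST qU qW qV κ s) (lv qU qW qV κ s) = S := by rw [hl]; exact hS
      rw [h3]
      exact hmV _ _ _ g3 hs1
    · rw [← Wc_eq]; exact g1
    · rw [add_mul, ← Wc_eq]
      have : ratOf t.2 = w + 4 * δ := by rw [hδ]; ring
      linarith
  have h5 : r ≤ am qU qW qV κ s := am_ge (by rw [hl]; exact min_le_left _ _) hact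
  have h6 : (r : ℝ) * uu κ s ≤ rr qU qW qV κ s := by
    unfold rr
    exact mul_le_mul_of_nonneg_right (by exact_mod_cast h5) hu.le
  refine le_trans ?_ h6
  rcases min_choice n ⌈δ / uu κ s⌉₊ with h7 | h7
  · rw [hr, h7]
    refine (min_le_left _ _).trans ?_
    unfold ee
    rw [← sub_mul]
    refine mul_le_mul_of_nonneg_right ?_ hu.le
    rw [hn]
    have h8 : gE (ST qU qW qV κ s) l ≤ (gE (ST qU qW qV κ s) l - gE (ST qU qW qV κ s) 0) +
      gE (ST qU qW qV κ s) 0 := by omega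
    have h9 : (gE (ST qU qW qV κ s) l : ℝ) ≤ ((gE (ST qU qW qV κ s) l -
      gE (ST qU qW qV κ s) 0 : ℕ) : ℝ) + gE (ST qU qW qV κ s) 0 := by exact_mod_cast h8
    linarith
  · rw [hr, h7]
    refine (min_le_right _ _).trans ?_
    have h8 := Nat.le_ceil (δ / uu κ s)
    calc δ = δ / uu κ s * uu κ s := by field_simp
      _ ≤ _ := mul_le_mul_of_nonneg_right h8 hu.le

end conc

end Pool.Agent.V11238.Om
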