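import Mathlib
import Pool.Agent.V11238.Om.Conc2

/-!
The contradiction, and the programs realizing the moves.
-/

set_option autoImplicit false

namespace Pool.Agent.V11238.Om

open Finset Encodable Pool.Agent.H561R3 Pool.Agent.H561R3.Om Filter Topology

section contra

variable {qU : Str × Str → ℕ → Prop} {qW : Str → ℕ → Prop} {qV : ℕ × IC → ℕ → Prop} {κ : Str}
variable (hU : ∀ a m n, m ≤ n → qU a m → qU a n) (hW : ∀ a m n, m ≤ n → qW a m → qW a n)
variable {V : ℕ → Set IC} (hqV : ∀ c t, t ∈ V c ↔ ∃ s, qV (c, t) s)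
  (hmV : ∀ a m n, m ≤ n → qV a m → qV a n)

lemma ee_top (s : ℕ) : ee qU qW qV κ (TT κ) s = (1 / 2) ^ κ.length := by
  have R := rules qU qW qV κ
  have hT : 0 < TT κ := by unfold TT; positivity
  induction s with
  | zero =>
    unfold ee uu
    rw [gE_zero _ le_rfl, if_pos rfl]
    simp
  | succ s ih =>
    rcases (R.r_nonneg s).eq_or_lt with h | h
    · rw [R.idle_e s h.symm _ le_rfl, ih]
    · have h1 := R.act_lev s h
      have h2 := R.lev_pos s
      rw [R.act_old s h _ le_rfl (by omega), ih]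

lemma ee_bound (s : ℕ) : ee qU qW qV κ 0 s ≤ (1 / 2) ^ κ.length := by
  have R := rules qU qW qV κ
  have hT : 0 < TT κ := by unfold TT; positivity
  induction s with
  | zero =>
    unfold ee
    rw [gE_zero _ (Nat.zero_le _), if_neg hT.ne]
    simp
  | succ s ih =>
    rcases (R.r_nonneg s).eq_or_lt with h | h
    · rw [R.idle_e s h.symm 0 (by omega)]; exact ih
    · have h1 := R.act_lev s h
      have h2 := R.lev_pos s
      have h3 : ee qU qW qV κ 0 (s + 1) ≤ ee qU qW qV κ 0 s + rr qU qW qV κ s := by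
        by_cases h4 : lv qU qW qV κ s - 1 = 0
        · have := R.act_new s h
          rw [h4] at this
          exact this.le
        · rw [R.act_old s h 0 (by omega) (by omega)]
          linarith
      refine h3.trans ((R.act_le s h).trans ?_)
      rw [← ee_top (qU := qU) (qW := qW) (qV := qV) s]
      exact nest R s _ _ le_rfl h1 le_rfl

include hU hW hqV hmV in
theorem contra (hV : ∀ n, MeasureTheory.volume (openOf (V n)) ≤ ENNReal.ofReal ((1 / 2 : ℝ) ^ n))
    (hdom : ∀ s, mass (Df qU qW κ s) ≤ 1) {w : ℝ} (hw : ∀ c, w ∈ openOf (V c))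
    (hlim : Tendsto (Wc qU qW qV κ) atTop (𝓝 w)) : False := by
  classical
  have R := rules qU qW qV κ
  have hT : 0 < TT κ := by unfold TT; positivity
  have hl := live R (fun l _ S => hlive hqV hmV hw hlim l S) (TT κ) le_rfl 0
  have hex : ∃ s, TT κ < lv qU qW qV κ s := by
    obtain ⟨s, _, hs⟩ := hl
    exact ⟨s, hs⟩
  set t := Nat.find hex with ht
  have ht1 : TT κ < lv qU qW qV κ t := Nat.find_spec hex
  have ht2 : ∀ s < t, lv qU qW qV κ s ≤ TT κ := fun s hs => not_lt.1 (Nat.find_min hex hs)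
  have hl0 : TT κ ≤ lv qU qW qV κ 0 := by
    by_contra hcon
    push Not at hcon
    have h1 := lev_spec (qU := qU) (qW := qW) (qV := qV) (κ := κ) (s := 0) hcon.le
    rw [gE_zero _ hcon.le, if_neg hcon.ne] at h1
    omega
  have hm := main (Bf_mono hU) (Df_mono hU hW) Df_sub Bf_len (vv_le hV) (vv_nonneg hV)
    (vv_mono hV) (vv_lip hV) (k := kk κ) R (fun s h => hvi hqV hV s h)
    (TT κ) hT le_rfl 0 0 t le_rfl (Nat.zero_le _) rfl (by
      unfold sg gS
      show ((ini κ).getD (TT κ) (0, 0)).2 = 0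
      unfold ini
      rw [List.getD_eq_getElem _ _ (by simp), List.getElem_map])
    (fun s _ hs => ht2 s hs) hl0 ht1.le
  have h0 : ee qU qW qV κ 0 0 = 0 := by
    unfold ee
    rw [gE_zero _ (Nat.zero_le _), if_neg hT.ne]
    simp
  have h1 : (1 / 2 : ℝ) ^ κ.length ≤ ee qU qW qV κ 0 t := by
    rw [← ee_top (qU := qU) (qW := qW) (qV := qV) t]
    exact R.below t _ ht1
  rw [h0, sub_zero] at hm
  have h2 : (TT κ : ℝ) * (1 / 2) ^ κ.length = 2 := by
    unfold TT
    push_cast
    rw [pow_succ, mul_right_comm, ← mul_pow]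
    norm_num
  have h3 : (2 : ℝ) ≤ TT κ * ee qU qW qV κ 0 t := by
    rw [← h2]
    exact mul_le_mul_of_nonneg_left h1 (Nat.cast_nonneg _)
  have hk : (1 / 2 : ℝ) ^ kk κ = (1 / 8) * (1 / 2) ^ κ.length := by
    unfold kk
    rw [pow_add]; norm_num; ring
  have hk0 : (0 : ℝ) < (1 / 2) ^ κ.length := by positivity
  have hk1 : (1 / 2 : ℝ) ^ κ.length ≤ 1 := pow_le_one₀ (by norm_num) (by norm_num)
  have h4 : vv V (0 + kk κ) (WW (Bf qU κ) (Df qU qW κ) (ee qU qW qV κ 0) t) ≤ 1 / 8 := by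
    refine (vv_le hV _ _).trans ?_
    rw [zero_add, hk]
    linarith
  have h5 : New (Bf qU κ) (Df qU qW κ) 0 t ≤ 1 :=
    (mass_mono sdiff_subset).trans (hdom t)
  have h6 : Old (Bf qU κ) (Df qU qW κ) 0 t ≤ 1 :=
    (mass_mono (inter_subset_left.trans sdiff_subset)).trans (hdom t)
  have h7 : rho (Df qU qW κ) 0 t ≤ 3 := by
    unfold rho
    have h8 : ∑ s ∈ Ico 0 t, (1 / 2 : ℝ) ^ s ≤ 2 := by
      rw [← range_eq_Ico, geom_sum_eq (by norm_num)]
      have : (0 : ℝ) < (1 / 2) ^ t := by positivity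
      rw [div_le_iff_of_neg (by norm_num)]
      linarith
    have h9 := mass_nonneg (Df qU qW κ 0)
    have h10 := hdom t
    linarith
  have h8 : (1 / 2 : ℝ) ^ kk κ * Old (Bf qU κ) (Df qU qW κ) 0 t ≤ 1 / 8 := by
    rw [hk]
    have := mass_nonneg ((Df qU qW κ t \ Df qU qW κ 0) ∩ Bf qU κ 0)
    have h9 : 0 ≤ Old (Bf qU κ) (Df qU qW κ) 0 t := Old_nonneg _ _
    nlinarith
  have h9 : ((TT κ : ℝ) - 1) * ((1 / 2) ^ kk κ * rho (Df qU qW κ) 0 t) ≤
      3 / 4 - 3 / 8 * (1 / 2) ^ κ.length := by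
    have h10 : (0 : ℝ) ≤ (TT κ : ℝ) - 1 := by
      have : (1 : ℝ) ≤ TT κ := by exact_mod_cast hT
      linarith
    have h11 : (1 / 2 : ℝ) ^ kk κ * rho (Df qU qW κ) 0 t ≤ 3 / 8 * (1 / 2) ^ κ.length := by
      rw [hk]
      nlinarith
    calc ((TT κ : ℝ) - 1) * ((1 / 2) ^ kk κ * rho (Df qU qW κ) 0 t)
        ≤ ((TT κ : ℝ) - 1) * (3 / 8 * (1 / 2) ^ κ.length) := mul_le_mul_of_nonneg_left h11 h10
      _ = 3 / 8 * ((TT κ : ℝ) * (1 / 2) ^ κ.length) - 3 / 8 * (1 / 2) ^ κ.length := by ring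
      _ = _ := by rw [h2]; ring
  linarith

end contra

/-! ### programs -/

/-- binary value -/
def val (q : Str) : ℕ := q.foldl (fun n b => 2 * n + (if b then 1 else 0)) 0

lemma val_aux (q : Str) : ∀ n : ℕ, q.foldl (fun n b => 2 * n + (if b then 1 else 0)) n =
    n * 2 ^ q.length + val q := by
  induction q with
  | nil => intro n; simp [val]
  | cons b q ih =>
    intro n
    unfold val
    rw [List.foldl_cons, List.foldl_cons, ih, ih, List.length_cons, pow_succ]
    ring

lemma val_append (q r : Str) : val (q ++ r) = val q * 2 ^ r.length + val r := by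
  conv_lhs => unfold val
  rw [List.foldl_append, val_aux]
  rfl

lemma val_lt (q : Str) : val q < 2 ^ q.length := by
  induction q using List.reverseRecOn with
  | nil => simp [val]
  | append_singleton q b ih =>
    rw [val_append, List.length_append, List.length_singleton, pow_succ]
    have : val [b] ≤ 1 := by cases b <;> simp [val]
    omega

lemma val_inj : ∀ q r : Str, q.length = r.length → val q = val r → q = r := by
  intro q
  induction q using List.reverseRecOn with
  | nil => intro r h _; exact (List.length_eq_zero_iff.1 h.symm).symm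
  | append_singleton q b ih =>
    intro r hl hv
    induction r using List.reverseRecOn with
    | nil => simp at hl
    | append_singleton r c _ =>
      rw [val_append, val_append, List.length_singleton, List.length_singleton] at hv
      rw [List.length_append, List.length_append] at hl
      have h1 : val [b] = if b then 1 else 0 := by cases b <;> simp [val]
      have h2 : val [c] = if c then 1 else 0 := by cases c <;> simp [val]
      rw [h1, h2] at hv
      have h3 : val q = val r ∧ b = c := by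
        cases b <;> cases c <;> simp at hv ⊢ <;> omega
      rw [ih r (by simpa using hl) h3.1, h3.2]

lemma card_val {s a b : ℕ} (hb : b ≤ 2 ^ s) :
    ((FS s).filter fun q => a ≤ val q ∧ val q < b).card = b - a := by
  have h1 : (FS s).image val = range (2 ^ s) := by
    apply eq_of_subset_of_card_le
    · intro n hn
      obtain ⟨q, hq, rfl⟩ := mem_image.1 hn
      rw [mem_FS] at hq
      rw [mem_range, ← hq]
      exact val_lt q
    · rw [card_range, card_image_of_injOn, card_FS]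
      intro q hq r hr h
      simp only [mem_coe, mem_FS] at hq hr
      exact val_inj q r (hq.trans hr.symm) h
  have h2 : ((FS s).filter fun q => a ≤ val q ∧ val q < b).image val = Ico a b := by
    ext n
    simp only [mem_image, Finset.mem_filter, mem_Ico]
    constructor
    · rintro ⟨q, ⟨_, h3, h4⟩, rfl⟩
      exact ⟨h3, h4⟩
    · rintro ⟨h3, h4⟩
      have h5 : n ∈ (FS s).image val := by rw [h1, mem_range]; omega
      obtain ⟨q, hq, rfl⟩ := mem_image.1 h5
      exact ⟨q, ⟨hq, h3, h4⟩, rfl⟩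
  rw [← Nat.card_Ico, ← h2, card_image_of_injOn]
  intro q hq r hr h
  simp only [coe_filter, Set.mem_setOf_eq, mem_FS] at hq hr
  exact val_inj q r (hq.1.trans hr.1.symm) h

section prog

open Classical

variable (qU : Str × Str → ℕ → Prop) (qW : Str → ℕ → Prop) (qV : ℕ × IC → ℕ → Prop) (κ : Str)

/-- the programs appended to `κ` -/
def Dk (q : Str) : Prop :=
  gE (ST qU qW qV κ q.length) 0 ≤ val q ∧ 2 * val q < gE (ST qU qW qV κ (q.length + 1)) 0

variable {qU qW qV κ}

lemma gE_step (s : ℕ) : ∃ m, gE (ST qU qW qV κ (s + 1)) 0 = 2 * (gE (ST qU qW qV κ s) 0 + m) ∧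
    (ee qU qW qV κ 0 (s + 1) = ee qU qW qV κ 0 s + m * uu κ s) := by
  have hT : 0 ≤ TT κ := Nat.zero_le _
  have key : ∃ m, gE (ST qU qW qV κ (s + 1)) 0 = 2 * (gE (ST qU qW qV κ s) 0 + m) := by
    unfold gE
    rw [ST_getD s 0 hT]
    by_cases h : am qU qW qV κ s = 0
    · rw [if_pos h]; exact ⟨0, rfl⟩
    · rw [if_neg h]
      by_cases h2 : 0 + 1 = lev (ST qU qW qV κ s)
      · refine ⟨am qU qW qV κ s, ?_⟩
        simp only [if_pos h2]
        rfl
      · refine ⟨0, ?_⟩
        simp only [if_neg h2]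
        rfl
  obtain ⟨m, hm⟩ := key
  refine ⟨m, hm, ?_⟩
  unfold ee
  rw [hm, uu_succ s]
  push_cast
  ring

lemma gE_grow (s d : ℕ) : 2 ^ d * gE (ST qU qW qV κ s) 0 ≤ gE (ST qU qW qV κ (s + d)) 0 := by
  induction d with
  | zero => simp
  | succ d ih =>
    obtain ⟨m, hm, _⟩ := gE_step (qU := qU) (qW := qW) (qV := qV) (κ := κ) (s + d)
    rw [← add_assoc, hm, pow_succ]
    calc 2 ^ d * 2 * gE (ST qU qW qV κ s) 0 = 2 * (2 ^ d * gE (ST qU qW qV κ s) 0) := by ring
      _ ≤ _ := by omega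

lemma Dk_prefix {q r : Str} (hq : Dk qU qW qV κ q) (hr : Dk qU qW qV κ r) (h : q <+: r) :
    q = r := by
  obtain ⟨v, rfl⟩ := h
  rcases Nat.eq_zero_or_pos v.length with h0 | h0
  · rw [List.length_eq_zero_iff.1 h0, List.append_nil]
  · exfalso
    obtain ⟨d, hd⟩ : ∃ d, v.length = d + 1 := ⟨v.length - 1, by omega⟩
    have h1 := hq.2
    have h2 := hr.1
    rw [val_append, List.length_append, hd] at h2
    have h3 := val_lt v
    rw [hd] at h3
    have h4 := gE_grow (qU := qU) (qW := qW) (qV := qV) (κ := κ) (q.length + 1) d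
    obtain ⟨m, hm, _⟩ := gE_step (qU := qU) (qW := qW) (qV := qV) (κ := κ) q.length
    rw [show q.length + 1 + d = q.length + (d + 1) by ring] at h4
    have h5 : 2 * (val q + 1) ≤ gE (ST qU qW qV κ (q.length + 1)) 0 := by omega
    have h6 : 2 ^ d * (2 * (val q + 1)) ≤ 2 ^ d * gE (ST qU qW qV κ (q.length + 1)) 0 :=
      Nat.mul_le_mul_left _ h5
    have h7 : 2 ^ d * (2 * (val q + 1)) = val q * 2 ^ (d + 1) + 2 ^ (d + 1) := by ring
    omega

lemma gE_bound (s : ℕ) : gE (ST qU qW qV κ s) 0 ≤ 2 ^ s := by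
  have h1 := ee_bound (qU := qU) (qW := qW) (qV := qV) (κ := κ) s
  unfold ee uu at h1
  rw [pow_add, ← mul_assoc] at h1
  have h2 : (0 : ℝ) < (1 / 2) ^ κ.length := by positivity
  have h3 : (gE (ST qU qW qV κ s) 0 : ℝ) * (1 / 2) ^ s ≤ 1 := by
    by_contra hcon
    push Not at hcon
    nlinarith
  have h4 : (gE (ST qU qW qV κ s) 0 : ℝ) ≤ 2 ^ s := by
    have h5 : (2 : ℝ) ^ s * (1 / 2) ^ s = 1 := by rw [← mul_pow]; norm_num
    calc (gE (ST qU qW qV κ s) 0 : ℝ) = gE (ST qU qW qV κ s) 0 * (1 / 2) ^ s * 2 ^ s := by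
          rw [mul_assoc, mul_comm ((1 / 2 : ℝ) ^ s), h5, mul_one]
      _ ≤ 1 * 2 ^ s := mul_le_mul_of_nonneg_right h3 (by positivity)
      _ = _ := one_mul _
  exact_mod_cast h4

lemma mass_level (s : ℕ) : ∑ q ∈ (FS s).filter (Dk qU qW qV κ),
    (1 / 2 : ℝ) ^ (κ ++ q).length = ee qU qW qV κ 0 (s + 1) - ee qU qW qV κ 0 s := by
  obtain ⟨m, hm, he⟩ := gE_step (qU := qU) (qW := qW) (qV := qV) (κ := κ) s
  have h1 : (FS s).filter (Dk qU qW qV κ) = (FS s).filter fun q =>
      gE (ST qU qW qV κ s) 0 ≤ val q ∧ val q < gE (ST qU qW qV κ s) 0 + m := by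
    ext q
    simp only [Finset.mem_filter, mem_FS]
    constructor
    · rintro ⟨h1, h2, h3⟩
      rw [h1] at h2 h3
      exact ⟨h1, h2, by omega⟩
    · rintro ⟨h1, h2, h3⟩
      refine ⟨h1, ?_, ?_⟩
      · rw [h1]; exact h2
      · rw [h1]; omega
  have h2 : gE (ST qU qW qV κ s) 0 + m ≤ 2 ^ s := by
    have := gE_bound (qU := qU) (qW := qW) (qV := qV) (κ := κ) (s + 1)
    rw [hm, pow_succ] at this
    omega
  have h3 : ∀ q ∈ (FS s).filter (Dk qU qW qV κ), (1 / 2 : ℝ) ^ (κ ++ q).length = uu κ s := by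
    intro q hq
    rw [Finset.mem_filter, mem_FS] at hq
    unfold uu
    rw [List.length_append, hq.1, add_comm]
  rw [sum_congr rfl h3, sum_const, h1, card_val h2, he]
  simp

/-- the programs of length less than `s` -/
noncomputable def Dn (qU : Str × Str → ℕ → Prop) (qW : Str → ℕ → Prop) (qV : ℕ × IC → ℕ → Prop)
    (κ : Str) (s : ℕ) : Finset Str :=
  (range s).biUnion fun i => ((FS i).filter (Dk qU qW qV κ)).image (κ ++ ·)

lemma mem_Dn {s : ℕ} {p : Str} : p ∈ Dn qU qW qV κ s ↔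
    ∃ q, q.length < s ∧ Dk qU qW qV κ q ∧ p = κ ++ q := by
  unfold Dn
  simp only [mem_biUnion, mem_range, mem_image, Finset.mem_filter, mem_FS]
  constructor
  · rintro ⟨i, hi, q, ⟨h1, h2⟩, rfl⟩
    exact ⟨q, by omega, h2, rfl⟩
  · rintro ⟨q, h1, h2, rfl⟩
    exact ⟨q.length, h1, q, ⟨rfl, h2⟩, rfl⟩

lemma mass_Dn (s : ℕ) : mass (Dn qU qW qV κ s) = ee qU qW qV κ 0 s := by
  unfold mass Dn
  rw [sum_biUnion]
  · have h1 : ∀ i ∈ range s, ∑ p ∈ ((FS i).filter (Dk qU qW qV κ)).image (κ ++ ·),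
        (1 / 2 : ℝ) ^ p.length = ee qU qW qV κ 0 (i + 1) - ee qU qW qV κ 0 i := by
      intro i _
      rw [sum_image (fun a _ b _ h => List.append_cancel_left h), mass_level]
    rw [sum_congr rfl h1, sum_range_sub]
    have h0 : ee qU qW qV κ 0 0 = 0 := by
      have hT : 0 < TT κ := by unfold TT; positivity
      unfold ee
      rw [gE_zero _ (Nat.zero_le _), if_neg hT.ne]
      simp
    rw [h0, sub_zero]
  · intro i _ j _ hij
    simp only [Function.onFun]
    rw [disjoint_left]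
    intro p hp hp'
    simp only [mem_image, Finset.mem_filter, mem_FS] at hp hp'
    obtain ⟨q, ⟨h1, _⟩, rfl⟩ := hp
    obtain ⟨q', ⟨h2, _⟩, h3⟩ := hp'
    rw [List.append_cancel_left h3] at h2
    exact hij (h1.symm.trans h2)

end prog

end Pool.Agent.V11238.Om
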