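import Mathlib
import Pool.Agent.V11238.Om.Conc3

/-!
The machine which plays the attack, and the final theorem.
-/

set_option autoImplicit false

namespace Pool.Agent.V11238.Om

open Finset Encodable Pool.Agent.H561R3 Pool.Agent.H561R3.Om Pool.Agent.Helper227 Filter Topology

open Classical

/-- self-delimiting code of a string -/
def pi (σ : Str) : Str := (List.range σ.length).map (fun _ => true) ++ (false :: σ)

def dn (p : Str) : ℕ := p.findIdx (fun b => !b)
def dS (p : Str) : Str := (p.drop (dn p + 1)).take (dn p)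
def dq (p : Str) : Str := p.drop (2 * dn p + 1)

lemma pi_eq (σ q : Str) : pi σ ++ q = List.replicate σ.length true ++ (false :: (σ ++ q)) := by
  unfold pi
  rw [List.map_const', List.length_range, List.append_assoc, List.cons_append]

lemma dn_pi (σ q : Str) : dn (pi σ ++ q) = σ.length := by
  unfold dn
  rw [pi_eq, List.findIdx_append]
  have h1 : (List.replicate σ.length true).findIdx (fun b => !b) = σ.length := by
    rw [List.findIdx_eq_length_of_false, List.length_replicate]
    intro x hx
    rw [List.eq_of_mem_replicate hx]; rfl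
  rw [h1, List.length_replicate, if_neg (lt_irrefl _)]
  simp [List.findIdx_cons]

lemma dS_pi (σ q : Str) : dS (pi σ ++ q) = σ := by
  unfold dS
  rw [dn_pi, pi_eq]
  rw [show σ.length + 1 = (List.replicate σ.length true).length + 1 by simp,
    List.drop_length_add_append, List.drop_one, List.tail_cons]
  simp

lemma dq_pi (σ q : Str) : dq (pi σ ++ q) = q := by
  unfold dq
  rw [dn_pi, pi_eq]
  rw [show 2 * σ.length + 1 = (List.replicate σ.length true).length + (σ.length + 1) by simp; ring,
    List.drop_length_add_append, List.drop_succ_cons]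
  simp

lemma pi_prefix {σ τ q r : Str} (h : pi σ ++ q <+: pi τ ++ r) : σ = τ ∧ q <+: r := by
  obtain ⟨v, hv⟩ := h
  rw [List.append_assoc] at hv
  have h1 : σ = τ := by rw [← dS_pi σ (q ++ v), hv, dS_pi]
  subst h1
  exact ⟨rfl, v, List.append_cancel_left hv⟩

section machine

variable (qU : Str × Str → ℕ → Prop) (qW : Str → ℕ → Prop) (qV : ℕ × IC → ℕ → Prop) (x0 : Str)

/-- the halting condition -/
def cnd (p : Str) : Prop := p = pi (dS p) ++ dq p ∧ Dk qU qW qV (dS p ++ pi (dS p)) (dq p)

/-- the machine -/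
noncomputable def Nm : Str →. Str := fun p => bif decide (cnd qU qW qV p) then Part.some x0
  else Part.none

variable {qU qW qV x0}

lemma cnd_pi (σ q : Str) : cnd qU qW qV (pi σ ++ q) ↔ Dk qU qW qV (σ ++ pi σ) q := by
  unfold cnd
  rw [dS_pi, dq_pi]
  simp

lemma mem_Nm {p y : Str} : y ∈ Nm qU qW qV x0 p ↔ cnd qU qW qV p ∧ y = x0 := by
  unfold Nm
  by_cases h : cnd qU qW qV p
  · simp [h]
  · simp [h]

lemma pr_val : Primrec val := by
  unfold val
  refine Primrec.list_foldl (Primrec.id) (Primrec.const 0) (h := fun (_ : Str) (x : ℕ × Bool) => 2 * x.1 +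
    (if x.2 = true then 1 else 0)) ?_
  refine Primrec.nat_add.comp (Primrec.nat_mul.comp (Primrec.const 2)
    (Primrec.fst.comp Primrec.snd)) ?_
  refine Primrec.ite ?_ (Primrec.const 1) (Primrec.const 0)
  exact Primrec.eq.comp (Primrec.snd.comp Primrec.snd) (Primrec.const true)

lemma pr_Dk (hU : PrimrecRel qU) (hW : PrimrecRel qW) (hV : PrimrecRel qV) :
    PrimrecRel (Dk qU qW qV) := by
  have hST := pr_ST hU hW hV
  refine PrimrecPred.and ?_ ?_
  · refine Primrec.nat_le.comp (pr_gE (hST.comp Primrec.fst (Primrec.list_length.comp Primrec.snd))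
      (Primrec.const 0)) (pr_val.comp Primrec.snd)
  · refine Primrec.nat_lt.comp (Primrec.nat_mul.comp (Primrec.const 2) (pr_val.comp Primrec.snd))
      (pr_gE (hST.comp Primrec.fst (Primrec.succ.comp (Primrec.list_length.comp Primrec.snd)))
      (Primrec.const 0))

lemma pr_pi : Primrec pi := by
  unfold pi
  exact Primrec.list_append.comp (Primrec.list_map (Primrec.list_range.comp Primrec.list_length)
    (Primrec.const true).to₂) (Primrec.list_cons.comp (Primrec.const false) Primrec.id)

lemma pr_dn : Primrec dn := by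
  unfold dn
  exact Primrec.list_findIdx Primrec.id (Primrec.not.comp Primrec.snd).to₂

lemma pr_dS : Primrec dS := by
  unfold dS
  exact Primrec.list_take.comp pr_dn (Primrec.list_drop.comp (Primrec.succ.comp pr_dn) Primrec.id)

lemma pr_dq : Primrec dq := by
  unfold dq
  exact Primrec.list_drop.comp (Primrec.succ.comp (Primrec.nat_mul.comp (Primrec.const 2) pr_dn))
    Primrec.id

lemma pr_cnd (hU : PrimrecRel qU) (hW : PrimrecRel qW) (hV : PrimrecRel qV) :
    PrimrecPred (cnd qU qW qV) := by
  refine PrimrecPred.and ?_ ?_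
  · exact Primrec.eq.comp Primrec.id (Primrec.list_append.comp (pr_pi.comp pr_dS) pr_dq)
  · exact (pr_Dk hU hW hV).comp (Primrec.list_append.comp pr_dS (pr_pi.comp pr_dS)) pr_dq

lemma pf_Nm (hU : PrimrecRel qU) (hW : PrimrecRel qW) (hV : PrimrecRel qV) :
    PFMachine (Nm qU qW qV x0) := by
  refine ⟨?_, ?_⟩
  · unfold Nm
    exact Partrec.cond (pr_cnd hU hW hV).decide.to_comp
      (Decidable.Partrec.const' (Part.some x0)) Partrec.none
  · intro p p' hp hp' h
    obtain ⟨y, hy⟩ := Part.dom_iff_mem.1 hp
    obtain ⟨y', hy'⟩ := Part.dom_iff_mem.1 hp'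
    obtain ⟨h1, h2⟩ := (mem_Nm.1 hy).1
    obtain ⟨h3, h4⟩ := (mem_Nm.1 hy').1
    rw [h1, h3] at h
    obtain ⟨h5, h6⟩ := pi_prefix h
    rw [← h5] at h4
    have h7 := Dk_prefix h2 h4 h6
    rw [h1, h3, ← h5, ← h7]

end machine

lemma re_graph {U : Str →. Str} (hU : Partrec U) : REPred fun x : Str × Str => x.2 ∈ U x.1 := by
  have h : Partrec fun x : Str × Str => (U x.1).bind fun y =>
      bif decide (y = x.2) then Part.some () else Part.none := by
    refine Partrec.bind (hU.comp Computable.fst) ?_
    refine Partrec.cond ?_ (Decidable.Partrec.const' (Part.some ())) Partrec.none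
    exact (Primrec.eq.comp Primrec.snd (Primrec.snd.comp Primrec.fst)).decide.to_comp
  refine h.dom_re.of_eq fun x => ?_
  rw [Part.dom_iff_mem]
  simp only [Part.mem_bind_iff]
  constructor
  · rintro ⟨_, y, hy, h⟩
    by_cases h1 : y = x.2
    · rwa [← h1]
    · simp [h1] at h
  · intro hx
    exact ⟨(), x.2, hx, by simp⟩

/-- **Theorem.** -/
theorem omega_random (U : List Bool →. List Bool) (X : Set (List Bool))
    (hU : UniversalByAdjunction U) (hX : REPred fun x : List Bool => x ∉ X)
    (hpos : 0 < Omega U X) : MLRandomReal (Omega U X) := by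
  obtain ⟨⟨hUp, hUf⟩, M, σ, hM, hMp, hall, hσ, hσf, hadj⟩ := hU
  intro V hV
  obtain ⟨hVre, hVm⟩ := hV
  by_contra hcon
  push Not at hcon
  -- an element of `X` in the range
  have hx0 : ∃ x0, x0 ∈ X := by
    by_contra hno
    push Not at hno
    have : Omega U X = 0 := by
      unfold Omega
      have h1 : {p : List Bool | ∃ x ∈ X, x ∈ U p} = ∅ := by
        ext p
        simp only [Set.mem_ofPred_eq, Set.mem_empty_iff_false, iff_false]
        rintro ⟨x, hx, _⟩
        exact hno x hx
      rw [h1]
      simp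
    rw [this] at hpos
    exact lt_irrefl _ hpos
  obtain ⟨x0, hx0⟩ := hx0
  obtain ⟨qU, pU, mU, eU⟩ := S1.of_re (re_graph hUp)
  obtain ⟨qW, pW, mW, eW⟩ := S1.of_re hX
  obtain ⟨qV, pV, mV, eV⟩ := S1.of_re hVre
  obtain ⟨e, he⟩ := hall (Nm qU qW qV x0) (pf_Nm pU pW pV)
  set κ : Str := σ e ++ pi (σ e) with hκ
  have hUκ : ∀ q y, y ∈ U (κ ++ q) ↔ Dk qU qW qV κ q ∧ y = x0 := by
    intro q y
    rw [hκ, List.append_assoc, hadj, he, mem_Nm, cnd_pi]
  have hdom : ∀ s p, p ∈ Bf qU κ s → (U p).Dom := by
    intro s p hp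
    rw [mem_Bf] at hp
    obtain ⟨_, _, x, _, hx⟩ := hp
    exact Part.dom_iff_mem.2 ⟨x, (eU (p, x)).2 ⟨s, hx⟩⟩
  have hlim : Tendsto (Wc qU qW qV κ) atTop (𝓝 (Omega U X)) := by
    have h1 : ∀ s, Wc qU qW qV κ s = ∑ p ∈ (Bf qU κ s \ Df qU qW κ s) ∪ Dn qU qW qV κ s,
        (1 / 2 : ℝ) ^ p.length := by
      intro s
      rw [sum_union]
      · unfold Wc WW
        rw [← mass_Dn]
        rfl
      · rw [disjoint_left]
        intro p hp hp'
        rw [Finset.mem_sdiff, mem_Bf] at hp
        rw [mem_Dn] at hp'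
        obtain ⟨q, _, _, rfl⟩ := hp'
        exact hp.1.2.1 (List.prefix_append _ _)
    have h2 := tendsto_live (D := {p | (U p).Dom}) (fun p hp q hq h => hUf p q hp hq h)
      (fun s => (Bf qU κ s \ Df qU qW κ s) ∪ Dn qU qW qV κ s) {p | ∃ x ∈ X, x ∈ U p} ?_ ?_
    · unfold Omega
      refine h2.congr fun s => ?_
      rw [h1]
    · intro s p hp
      rw [Finset.mem_union, Finset.mem_sdiff] at hp
      rcases hp with hp | hp
      · exact hdom s p hp.1
      · rw [mem_Dn] at hp
        obtain ⟨q, _, h3, rfl⟩ := hp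
        exact Part.dom_iff_mem.2 ⟨x0, (hUκ q x0).2 ⟨h3, rfl⟩⟩
    · intro p
      by_cases hp : κ <+: p
      · obtain ⟨q, rfl⟩ := hp
        filter_upwards [eventually_gt_atTop q.length] with s hs
        rw [Finset.mem_union, Finset.mem_sdiff, mem_Bf, mem_Dn]
        constructor
        · rintro (h | ⟨q', _, h3, h4⟩)
          · exact absurd (List.prefix_append _ _) h.1.2.1
          · rw [← List.append_cancel_left h4] at h3
            exact ⟨x0, hx0, (hUκ q x0).2 ⟨h3, rfl⟩⟩
        · rintro ⟨x, _, hx⟩
          exact Or.inr ⟨q, hs, ((hUκ q x).1 hx).1, rfl⟩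
      · have hnD : ∀ s, p ∉ Dn qU qW qV κ s := by
          intro s h
          rw [mem_Dn] at h
          obtain ⟨q, _, _, rfl⟩ := h
          exact hp (List.prefix_append _ _)
        by_cases hd : (U p).Dom
        · obtain ⟨x, hx⟩ := Part.dom_iff_mem.1 hd
          obtain ⟨s1, hs1⟩ := (eU (p, x)).1 hx
          have huniq : ∀ y s, qU (p, y) s → y = x := fun y s h =>
            Part.mem_unique ((eU (p, y)).2 ⟨s, h⟩) hx
          by_cases hxX : x ∈ X
          · filter_upwards [eventually_ge_atTop s1, eventually_gt_atTop (encode x),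
              eventually_ge_atTop p.length] with s h3 h4 h5
            rw [Finset.mem_union, Finset.mem_sdiff, mem_Bf, mem_Df]
            constructor
            · intro _; exact ⟨x, hxX, hx⟩
            · intro _
              refine Or.inl ⟨⟨h5, hp, x, mem_cand_of_encode h4, mU _ _ _ h3 hs1⟩, ?_⟩
              rintro ⟨_, y, _, h6, h7⟩
              rw [huniq y s h6] at h7
              exact (eW x).2 ⟨s, h7⟩ hxX
          · obtain ⟨s2, hs2⟩ := (eW x).1 hxX
            filter_upwards [eventually_ge_atTop s1, eventually_gt_atTop (encode x),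
              eventually_ge_atTop p.length, eventually_ge_atTop s2] with s h3 h4 h5 h6
            rw [Finset.mem_union, Finset.mem_sdiff, mem_Bf, mem_Df]
            constructor
            · rintro (h | h)
              · exact absurd ⟨h.1, x, mem_cand_of_encode h4, mU _ _ _ h3 hs1, mW _ _ _ h6 hs2⟩ h.2
              · exact absurd h (hnD s)
            · rintro ⟨y, hy, hy'⟩
              rw [Part.mem_unique hy' hx] at hy
              exact absurd hy hxX
        · refine Eventually.of_forall fun s => ?_
          rw [Finset.mem_union, Finset.mem_sdiff]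
          constructor
          · rintro (h | h)
            · exact absurd (hdom s p h.1) hd
            · exact absurd h (hnD s)
          · rintro ⟨y, _, hy⟩
            exact absurd (Part.dom_iff_mem.2 ⟨y, hy⟩) hd
  refine contra mU mW (V := V) (fun c t => eV (c, t)) mV hVm (fun s => ?_) hcon hlim
  refine kraft _ fun p hp q hq h => hUf p q ?_ ?_ h
  · exact hdom s p (Df_sub s hp)
  · exact hdom s q (Df_sub s hq)

end Pool.Agent.V11238.Om
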